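import Pool.Agent.V7H54.C8.Cnt8

/-!
# Families of linear and diagonal quadratic forms: the facts needed for the counting theorem
-/

set_option autoImplicit false

namespace Pool.Agent.V7H54.CY

open Finset Pool.Agent.W262.RK
open Pool.Agent.W21.RK (mem_PS)
open Pool.Agent.V7H54.C8 (r2 card_zmod card_aff quad_iff r2_eq lift_of)

/-- facts about the forms `f · · j`, their discriminants `D j` and the numbers `R p j` of their roots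
modulo the primes `p` -/
structure Fam {n : ℕ} (f : ℤ → ℤ → Fin n → ℤ) (D : Fin n → ℤ) (R : ℕ → Fin n → ℕ) : Prop where
  /-- the divisibility depends on the residue classes -/
  per : ∀ (p : ℕ) (a b a' b' : ℤ), (p : ℤ) ∣ a - a' → (p : ℤ) ∣ b - b' → ∀ j,
    (p : ℤ) ∣ f a b j → (p : ℤ) ∣ f a' b' j
  /-- the number of roots -/
  roots : ∀ p : ℕ, p.Prime → 10 < p → ∀ e t : ℤ, (e = 1 ∨ e = -1) → ¬ (p : ℤ) ∣ t → ∀ j,
    ((range p).filter (fun x : ℕ => (p : ℤ) ∣ f (x : ℤ) (e * t + 2 * (x : ℤ)) j)).card = R p j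
  /-- two forms have no common zero -/
  uniq : ∀ p : ℕ, p.Prime → 10 < p → ∀ (a b : ℤ) (j l : Fin n), (p : ℤ) ∣ f a b j →
    (p : ℤ) ∣ f a b l → j ≠ l → (p : ℤ) ∣ a ∧ (p : ℤ) ∣ b
  /-- the leading coefficient -/
  lead : ∀ p : ℕ, p.Prime → 10 < p → ∀ (x : ℤ) (j : Fin n), (p : ℤ) ∣ f x (2 * x) j → (p : ℤ) ∣ x
  /-- the roots modulo `p` are simple -/
  lift : ∀ p : ℕ, p.Prime → 10 < p → ∀ e x x' w : ℤ, (e = 1 ∨ e = -1) → ¬ (p : ℤ) ∣ w →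
    ∀ j : Fin n, (p : ℤ) ^ 2 ∣ f x (e * w + 2 * x) j → (p : ℤ) ^ 2 ∣ f x' (e * w + 2 * x') j →
    (p : ℤ) ∣ x - x' → (p : ℤ) ^ 2 ∣ x - x'
  R_eq : ∀ p : ℕ, p.Prime → p ≠ 2 → ∀ j, (R p j : ℤ) = 1 + jacobiSym (D j) p
  sumR : ∀ p : ℕ, p.Prime → p ≠ 2 → ∑ j, R p j ≤ 10
  low : ∀ (z : ℕ) (j : Fin n), ∃ C : ℝ, ∀ y : ℕ, 3 ≤ y → z < y →
    Real.log (Real.log y) - C ≤ ∑ p ∈ PS z y, (R p j : ℝ) / p

/-! ### Tools for the instances -/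

lemma small {p : ℕ} (hp : 10 < p) (n : ℕ) (h1 : 0 < n) (h2 : n ≤ 10) : ¬ (p : ℤ) ∣ (n : ℤ) := by
  intro h
  have := Nat.le_of_dvd h1 (Int.natCast_dvd_natCast.1 h)
  omega

/-- the root of a linear form -/
lemma roots_lin {p : ℕ} (hp : p.Prime) {α β e t : ℤ} (hA : ¬ (p : ℤ) ∣ α + 2 * β) (g : ℤ → ℤ)
    (hg : ∀ x, g x = α * x + β * (e * t + 2 * x)) :
    ((range p).filter (fun x : ℕ => (p : ℤ) ∣ g (x : ℤ))).card = 1 := by
  have : Fact p.Prime := ⟨hp⟩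
  have hA' : ((α + 2 * β : ℤ) : ZMod p) ≠ 0 := fun h =>
    hA ((ZMod.intCast_zmod_eq_zero_iff_dvd _ _).1 h)
  have hone : (univ.filter (fun y : ZMod p => y = 0)).card = 1 := by
    rw [filter_eq' univ (0 : ZMod p)]
    simp
  rw [← hone, ← card_aff ((α + 2 * β : ℤ) : ZMod p) ((β * (e * t) : ℤ) : ZMod p) hA'
    (fun x : ZMod p => ((α + 2 * β : ℤ) : ZMod p) * x + ((β * (e * t) : ℤ) : ZMod p) = 0)
    (fun y => y = 0) (fun x => Iff.rfl), ← card_zmod]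
  congr 1
  apply filter_congr
  intro x _
  rw [hg, ← ZMod.intCast_zmod_eq_zero_iff_dvd]
  push_cast
  constructor <;> intro h <;> linear_combination h

/-- the roots of a diagonal quadratic form -/
lemma roots_quad {p : ℕ} (hp : p.Prime) {α γ e t D : ℤ} (he : e = 1 ∨ e = -1)
    (ht : ¬ (p : ℤ) ∣ t) (hA : ¬ (p : ℤ) ∣ α + 4 * γ) (hD : D = -α * γ) (g : ℤ → ℤ)
    (hg : ∀ x, g x = α * x ^ 2 + γ * (e * t + 2 * x) ^ 2) :
    ((range p).filter (fun x : ℕ => (p : ℤ) ∣ g (x : ℤ))).card = r2 D p := by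
  have : Fact p.Prime := ⟨hp⟩
  have hEE : e * e = 1 := by
    rcases he with h | h <;> rw [h] <;> ring
  have hA' : ((α + 4 * γ : ℤ) : ZMod p) ≠ 0 := fun h =>
    hA ((ZMod.intCast_zmod_eq_zero_iff_dvd _ _).1 h)
  have ht' : ((t : ℤ) : ZMod p) ≠ 0 := fun h => ht ((ZMod.intCast_zmod_eq_zero_iff_dvd _ _).1 h)
  have hEE' : (e : ZMod p) * e = 1 := by exact_mod_cast congrArg (fun x : ℤ => (x : ZMod p)) hEE
  rw [r2_eq, ← card_aff (((α + 4 * γ : ℤ) : ZMod p) / ((t : ℤ) : ZMod p)) ((2 * γ * e : ℤ) : ZMod p)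
    (div_ne_zero hA' ht')
    (fun x : ZMod p => (α : ZMod p) * x ^ 2 + γ * (e * t + 2 * x) ^ 2 = 0)
    (fun y => y ^ 2 = (D : ZMod p)) (fun x => ?_), ← card_zmod]
  · congr 1
    apply filter_congr
    intro x _
    rw [hg, ← ZMod.intCast_zmod_eq_zero_iff_dvd]
    push_cast
    exact Iff.rfl
  · refine quad_iff (κ := ((α + 4 * γ : ℤ) : ZMod p)) hA' ht' ?_
    rw [hD]
    push_cast
    linear_combination ((α : ZMod p) * γ * t ^ 2) * hEE'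

lemma lead_lin {p : ℕ} (hp : p.Prime) {α β x : ℤ} (hA : ¬ (p : ℤ) ∣ α + 2 * β)
    (h : (p : ℤ) ∣ α * x + β * (2 * x)) : (p : ℤ) ∣ x := by
  have hpI : Prime (p : ℤ) := Nat.prime_iff_prime_int.1 hp
  have h1 : (p : ℤ) ∣ (α + 2 * β) * x := by
    have : (α + 2 * β) * x = α * x + β * (2 * x) := by ring
    rw [this]
    exact h
  exact (hpI.dvd_or_dvd h1).resolve_left hA

lemma lead_quad {p : ℕ} (hp : p.Prime) {α γ x : ℤ} (hA : ¬ (p : ℤ) ∣ α + 4 * γ)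
    (h : (p : ℤ) ∣ α * x ^ 2 + γ * (2 * x) ^ 2) : (p : ℤ) ∣ x := by
  have hpI : Prime (p : ℤ) := Nat.prime_iff_prime_int.1 hp
  have h1 : (p : ℤ) ∣ (α + 4 * γ) * x ^ 2 := by
    have : (α + 4 * γ) * x ^ 2 = α * x ^ 2 + γ * (2 * x) ^ 2 := by ring
    rw [this]
    exact h
  exact hpI.dvd_of_dvd_pow ((hpI.dvd_or_dvd h1).resolve_left hA)

lemma lift_lin {p : ℕ} (hp : p.Prime) {α β e x x' w : ℤ} (hA : ¬ (p : ℤ) ∣ α + 2 * β)
    (h1 : (p : ℤ) ^ 2 ∣ α * x + β * (e * w + 2 * x))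
    (h2 : (p : ℤ) ^ 2 ∣ α * x' + β * (e * w + 2 * x')) : (p : ℤ) ^ 2 ∣ x - x' :=
  lift_of hp h1 h2 (α + 2 * β) (by ring) hA

lemma lift_quad {p : ℕ} (hp : p.Prime) (h10 : 10 < p) {α γ e x x' w : ℤ} (he : e = 1 ∨ e = -1)
    (hw : ¬ (p : ℤ) ∣ w) (hD : ¬ (p : ℤ) ∣ α * γ)
    (h1 : (p : ℤ) ^ 2 ∣ α * x ^ 2 + γ * (e * w + 2 * x) ^ 2)
    (h2 : (p : ℤ) ^ 2 ∣ α * x' ^ 2 + γ * (e * w + 2 * x') ^ 2) (h3 : (p : ℤ) ∣ x - x') :
    (p : ℤ) ^ 2 ∣ x - x' := by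
  have hpI : Prime (p : ℤ) := Nat.prime_iff_prime_int.1 hp
  have hEE : e * e = 1 := by
    rcases he with h | h <;> rw [h] <;> ring
  refine lift_of hp h1 h2 ((α + 4 * γ) * (x + x') + 4 * γ * e * w) (by ring) ?_
  intro hH
  have hf : (p : ℤ) ∣ α * x ^ 2 + γ * (e * w + 2 * x) ^ 2 :=
    (dvd_pow_self (p : ℤ) two_ne_zero).trans h1
  -- `4 α γ w ^ 2` is a combination
  have h4 : (p : ℤ) ∣ 4 * (α * γ) * w ^ 2 := by
    have e1 : 4 * (α * γ) * w ^ 2 = 4 * (α + 4 * γ) * (α * x ^ 2 + γ * (e * w + 2 * x) ^ 2) -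
        (2 * (α + 4 * γ) * x + 4 * γ * e * w) *
          (((α + 4 * γ) * (x + x') + 4 * γ * e * w) + (α + 4 * γ) * (x - x')) := by
      linear_combination (-4 * α * γ * w ^ 2) * hEE
    rw [e1]
    exact dvd_sub (hf.mul_left _) ((dvd_add hH (h3.mul_left _)).mul_left _)
  rcases hpI.dvd_or_dvd h4 with h | h
  · rcases hpI.dvd_or_dvd h with h | h
    · exact small h10 4 (by norm_num) (by norm_num) h
    · exact hD h
  · exact hw (hpI.dvd_of_dvd_pow h)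

end Pool.Agent.V7H54.CY
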